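import Pool.Agent.Helper1.TE.Goals3

/-!
# Project TE, packet T1: one round of the Turing machine
-/

set_option autoImplicit false

namespace Pool.Agent.Helper47.TE

open Pool.Agent.Helper1.TE
open Pool.Agent.Helper65.LinSpace (Dir inputSym inputMove Ctx)
open Pool.Agent.Helper6.Compile (Sy tapeOf val single upd_bound tapeOf_zero tapeOf_read
  tapeOf_read_end)

theorem det_single {P : ℕ → XP} {k : ℕ} {o : Fin k} {h0 : ∀ a, xtp (P 0) a < k}
    {h1 : ∀ a, xtp (P 1) a < k} {w : List Bool} {K : ℤ} {q : XCtl P} {n n' : ℕ}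
    {T T' : ℕ → ℤ → Sy} {H H' : ℕ → ℤ} {q' : XCtl P} {m : Dir} {i : Fin k} {x : Sy} {d : Dir}
    (h : (xTM P o h0 h1).step q (inputSym w n) (fun j : Fin k => T j (H j)) =
      {(q', m, single i (fun j : Fin k => T j (H j)) x d)})
    (hn : inputMove w m n = n')
    (hT : Function.update T i (Function.update (T i) (H i) x) = T')
    (hH : Function.update H i (H i + d.toInt) = H') (hK : ∀ j, |H' j| ≤ K) :
    Det (xTM P o h0 h1) w K (cfgX P o h0 h1 q n T H) (cfgX P o h0 h1 q' n' T' H') := by
  refine ⟨fun dd => ?_, fun j => hK j⟩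
  have e1 : (fun j : Fin k => Function.update (T j) (H j)
      ((single i (fun j : Fin k => T j (H j)) x d) j).1) =
      (fun j : Fin k => (Function.update T (i : ℕ) (Function.update (T i) (H i) x)) (j : ℕ)) := by
    funext j
    by_cases hj : j = i
    · subst hj; simp [single]
    · have : (j : ℕ) ≠ i := fun hh => hj (Fin.ext hh)
      simp [single, hj, this]
  have e2 : (fun j : Fin k => H j + ((single i (fun j : Fin k => T j (H j)) x d) j).2.toInt) =
      (fun j : Fin k => (Function.update H (i : ℕ) (H i + d.toInt)) (j : ℕ)) := by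
    funext j
    by_cases hj : j = i
    · subst hj; simp [single]
    · have : (j : ℕ) ≠ i := fun hh => hj (Fin.ext hh)
      simp [single, hj, this, Dir.toInt]
  have e3 : ({ state := q'
               inp := inputMove w m n
               tape := fun j : Fin k => Function.update (T j) (H j)
                 ((single i (fun j : Fin k => T j (H j)) x d) j).1
               head := fun j : Fin k =>
                 H j + ((single i (fun j : Fin k => T j (H j)) x d) j).2.toInt } :
                (xTM P o h0 h1).Cfg) = cfgX P o h0 h1 q' n' T' H' := by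
    subst hT hH hn
    exact (NTM.Cfg.mk.injEq (M := xTM P o h0 h1) _ _ _ _ _ _ _ _).mpr ⟨rfl, rfl, e1, e2⟩
  have key : (xTM P o h0 h1).Next w (cfgX P o h0 h1 q n T H) dd ↔
      ∃ a ∈ (xTM P o h0 h1).step q (inputSym w n) (fun j : Fin k => T j (H j)),
        dd = { state := a.1
               inp := inputMove w a.2.1 n
               tape := fun j : Fin k => Function.update (T j) (H j) (a.2.2 j).1
               head := fun j : Fin k => H j + (a.2.2 j).2.toInt } := Iff.rfl
  rw [key]
  constructor
  · rintro ⟨a, ha, hd⟩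
    rw [h] at ha
    have ha2 : a = (q', m, single i (fun j : Fin k => T j (H j)) x d) := ha
    subst ha2
    exact hd.trans e3
  · intro hd
    refine ⟨(q', m, single i (fun j : Fin k => T j (H j)) x d), ?_, hd.trans e3.symm⟩
    rw [h]
    exact rfl

theorem run_phase0 {P : ℕ → XP} {k : ℕ} {o : Fin k} {h0 : ∀ a, xtp (P 0) a < k}
    {h1 : ∀ a, xtp (P 1) a < k} {w : List Bool} {W : ℕ} {c c' : XConf (P 0)}
    (h : XSteps w (P 0) W c c') :
    Relation.ReflTransGen (Det (xTM P o h0 h1) w (W + 1))
      (cfgX P o h0 h1 (c.1.elim .chk .run0) c.2.1 c.2.2.1 c.2.2.2)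
      (cfgX P o h0 h1 (c'.1.elim .chk .run0) c'.2.1 c'.2.2.1 c'.2.2.2) := by
  refine Relation.ReflTransGen.lift
    (fun c : XConf (P 0) =>
      cfgX P o h0 h1 (c.1.elim .chk .run0) c.2.1 c.2.2.1 c.2.2.2) ?_ c c' h
  rintro ⟨x, n, T, H⟩ c₂ ⟨a, hx, rfl, hb⟩
  simp only at hx
  subst hx
  refine det_single (i := ⟨xtp (P 0) a, h0 a⟩)
    (m := (xact (P 0) a (inputSym w n) (T (xtp (P 0) a) (H (xtp (P 0) a)))).2.1)
    (x := (xact (P 0) a (inputSym w n) (T (xtp (P 0) a) (H (xtp (P 0) a)))).2.2.1)
    (d := (xact (P 0) a (inputSym w n) (T (xtp (P 0) a) (H (xtp (P 0) a)))).2.2.2) rfl rfl rfl rfl ?_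
  intro j
  rw [abs_of_nonneg (hb j).1]
  exact (hb j).2

theorem run_phase1 {P : ℕ → XP} {k : ℕ} {o : Fin k} {h0 : ∀ a, xtp (P 0) a < k}
    {h1 : ∀ a, xtp (P 1) a < k} {w : List Bool} {W : ℕ} {c c' : XConf (P 1)}
    (h : XSteps w (P 1) W c c') :
    Relation.ReflTransGen (Det (xTM P o h0 h1) w (W + 1))
      (cfgX P o h0 h1 (c.1.elim .chk .run1) c.2.1 c.2.2.1 c.2.2.2)
      (cfgX P o h0 h1 (c'.1.elim .chk .run1) c'.2.1 c'.2.2.1 c'.2.2.2) := by
  refine Relation.ReflTransGen.lift
    (fun c : XConf (P 1) =>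
      cfgX P o h0 h1 (c.1.elim .chk .run1) c.2.1 c.2.2.1 c.2.2.2) ?_ c c' h
  rintro ⟨x, n, T, H⟩ c₂ ⟨a, hx, rfl, hb⟩
  simp only at hx
  subst hx
  refine det_single (i := ⟨xtp (P 1) a, h1 a⟩)
    (m := (xact (P 1) a (inputSym w n) (T (xtp (P 1) a) (H (xtp (P 1) a)))).2.1)
    (x := (xact (P 1) a (inputSym w n) (T (xtp (P 1) a) (H (xtp (P 1) a)))).2.2.1)
    (d := (xact (P 1) a (inputSym w n) (T (xtp (P 1) a) (H (xtp (P 1) a)))).2.2.2) rfl rfl rfl rfl ?_
  intro j
  rw [abs_of_nonneg (hb j).1]
  exact (hb j).2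

theorem single_self {k : ℕ} (i : Fin k) (s : Fin k → Sy) :
    (fun j => (s j, Dir.stay)) = single i s (s i) .stay := by
  funext j
  unfold single
  by_cases hj : j = i
  · subst hj; simp
  · simp [hj]

theorem chkStep_true {P : ℕ → XP} {k : ℕ} (o : Fin k) (s : Fin k → Sy) :
    (chkStep o s (.bit true) : XCtl P × Dir × (Fin k → Sy × Dir)) =
      (.acc, .stay, single o s (s o) .stay) := by
  rw [← single_self o s]
  rfl

theorem gT1 : GoalT1 := by
  intro hX α inst N P o c hbody hacc k o' ho' h0 h1 w a γ n m W ls hγ hn henc hW hrep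
  obtain ⟨har, hB⟩ := hbody
  obtain ⟨n', hn', hrun⟩ := hB w a γ m ((m + 2) ^ c) n hγ hn henc le_rfl
  obtain ⟨ls', hls', hst⟩ := hX w ((m + 2) ^ c) W (P γ) _ _ hW hrun ls hrep
  have hph : Relation.ReflTransGen (Det (xTM P o' h0 h1) w (W + 1))
      (cfgX P o' h0 h1 (entX P γ) n (fun i => tapeOf (ls i)) fun _ => 0)
      (cfgX P o' h0 h1 .chk n' (fun i => tapeOf (ls' i)) fun _ => 0) := by
    interval_cases γ
    · exact run_phase0 hst
    · exact run_phase1 hst
  have hv : val (ls' o) = N.acc (N.nx w a γ) := by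
    have h := (hls' o).1
    simpa using h
  have hW1 : (1 : ℤ) ≤ (W : ℤ) + 1 := by omega
  have ho0 : Function.update (fun _ : ℕ => (0 : ℤ)) (o' : ℕ) 0 = fun _ => 0 := by
    funext j; simp [Function.update_apply]
  have s1 : Det (xTM P o' h0 h1) w ((W : ℤ) + 1)
      (cfgX P o' h0 h1 .chk n' (fun i => tapeOf (ls' i)) fun _ => 0)
      (cfgX P o' h0 h1 .chk2 n' (fun i => tapeOf (ls' i))
        (Function.update (fun _ : ℕ => (0 : ℤ)) (o' : ℕ) 1)) := by
    refine det_single (i := o') (x := tapeOf (ls' o') 0) (d := .right) (m := .stay) rfl rfl ?_ ?_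
      (upd_bound (by norm_num) hW1)
    · simp only [Function.update_eq_self]
    · simp [Dir.toInt]
  have hread : ∀ s : Fin k → Sy, s o' = tapeOf (ls' o') 1 →
      (xTM P o' h0 h1).step .chk2 (inputSym w n') s = {chkStep o' s (tapeOf (ls' o') 1)} := by
    intro s hs
    rw [← hs]
    rfl
  have hpre := hph.tail s1
  constructor
  · intro h0'
    rw [h0'] at hv
    have hx : tapeOf (ls' o) 1 = .blank ∨ tapeOf (ls' o) 1 = .bit false := by
      cases hl : ls' o with
      | nil =>
        left
        have := tapeOf_read_end []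
        simpa using this
      | cons b t =>
        right
        rw [hl] at hv
        have hb : b = false := by
          cases b
          · rfl
          · simp [val] at hv
        subst hb
        have := tapeOf_read [] false t
        simpa using this
    have s2 : Det (xTM P o' h0 h1) w ((W : ℤ) + 1)
        (cfgX P o' h0 h1 .chk2 n' (fun i => tapeOf (ls' i))
          (Function.update (fun _ : ℕ => (0 : ℤ)) (o' : ℕ) 1))
        (cfgX P o' h0 h1 .top n' (fun i => tapeOf (ls' i)) fun _ => 0) := by
      refine det_single (i := o') (x := tapeOf (ls' o') 1) (d := .left) (m := .stay) ?_ rfl ?_ ?_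
        (fun j => by simp; positivity)
      · rw [hread _ (by simp)]
        rcases hx with hx | hx
        · rw [← ho'] at hx
          rw [hx]
          rfl
        · rw [← ho'] at hx
          rw [hx]
          rfl
      · simp only [Function.update_self, Function.update_eq_self]
      · simp [Dir.toInt]
    refine ⟨n', hn', ls', fun i => ?_, hpre.tail s2⟩
    refine ⟨?_, (hls' i).2⟩
    rw [(hls' i).1]
    by_cases hi : i = o
    · subst hi
      simp only [Function.update_self]
      rw [h0']
      exact (Ctx.enc_of_le _ har).symm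
    · simp only [Function.update_of_ne hi]
  · intro h1'
    have hv1 : val (ls' o) = 1 := by
      have := hacc (N.nx w a γ)
      omega
    have hx : tapeOf (ls' o) 1 = .bit true := by
      cases hl : ls' o with
      | nil =>
        rw [hl] at hv1
        simp [val] at hv1
      | cons b t =>
        rw [hl] at hv1
        have hb : b = true := by
          cases b
          · simp [val] at hv1
          · rfl
        subst hb
        have := tapeOf_read [] true t
        simpa using this
    rw [← ho'] at hx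
    have s2 : Det (xTM P o' h0 h1) w ((W : ℤ) + 1)
        (cfgX P o' h0 h1 .chk2 n' (fun i => tapeOf (ls' i))
          (Function.update (fun _ : ℕ => (0 : ℤ)) (o' : ℕ) 1))
        (cfgX P o' h0 h1 .acc n' (fun i => tapeOf (ls' i))
          (Function.update (fun _ : ℕ => (0 : ℤ)) (o' : ℕ) 1)) := by
      refine det_single (i := o') (x := tapeOf (ls' o') 1) (d := .stay) (m := .stay) ?_ rfl ?_ ?_
        (upd_bound (by norm_num) hW1)
      · rw [hread _ (by simp), hx, chkStep_true]
        simp only [Function.update_self, hx]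
      · simp only [Function.update_self, Function.update_eq_self]
      · simp [Dir.toInt]
    exact ⟨_, rfl, hpre.tail s2⟩

end Pool.Agent.Helper47.TE
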